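import Pool.Agent.N669.CQ.Stm

set_option autoImplicit false

/-!
# The area of the octagon (lower bound)
-/

namespace Pool.Agent.N682.CQ.ARE

open MeasureTheory Set Pool.Agent.N669.CQ

lemma conv_fst {s : Set ℝ} (hs : Convex ℝ s) : Convex ℝ {z : P | z.1 ∈ s} :=
  hs.linear_preimage (LinearMap.fst ℝ ℝ ℝ)

lemma conv_snd {s : Set ℝ} (hs : Convex ℝ s) : Convex ℝ {z : P | z.2 ∈ s} :=
  hs.linear_preimage (LinearMap.snd ℝ ℝ ℝ)

lemma line_fst (c : ℝ) : volume {z : P | z.1 = c} = 0 := by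
  have h : {z : P | z.1 = c} = {c} ×ˢ univ := by
    ext z
    simp
  rw [h, Measure.volume_eq_prod, Measure.prod_prod, Real.volume_singleton, zero_mul]

lemma line_snd (c : ℝ) : volume {z : P | z.2 = c} = 0 := by
  have h : {z : P | z.2 = c} = univ ×ˢ {c} := by
    ext z
    simp
  rw [h, Measure.volume_eq_prod, Measure.prod_prod, Real.volume_singleton, mul_zero]

lemma seg {K : Set P} (hK : Convex ℝ K) {a b : P} (ha : a ∈ K) (hb : b ∈ K) {t : ℝ} (h0 : 0 ≤ t)
    (h1 : t ≤ 1) : ((1 - t) * a.1 + t * b.1, (1 - t) * a.2 + t * b.2) ∈ K := by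
  exact hK ha hb (sub_nonneg.2 h1) h0 (by ring)

lemma hull3 {a b c : P} {H : Set P} (hH : Convex ℝ H) (ha : a ∈ H) (hb : b ∈ H) (hc : c ∈ H) :
    convexHull ℝ {a, b, c} ⊆ H := by
  apply convexHull_min _ hH
  rintro z (rfl | rfl | rfl) <;> assumption

theorem t_ARE (h : S_TRI) : S_ARE := by
  intro x1 y2 x3 y4 h1 h2 h3 h4 hp
  obtain ⟨⟨hx1, hx1'⟩, ⟨hy2, hy2'⟩, ⟨hx3, hx3'⟩, ⟨hy4, hy4'⟩, hh1, hh2, hh3, hh4⟩ := hp
  set O := oct x1 y2 x3 y4 h1 h2 h3 h4 with hO
  have hconv : Convex ℝ O := convex_convexHull ℝ _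
  have hcomp : IsCompact O := by
    rw [hO, oct]
    exact (Set.toFinite _).isCompact_convexHull ℝ
  have c00 : ((0 : ℝ), (0 : ℝ)) ∈ O := subset_convexHull ℝ _ (by simp)
  have c10 : ((1 : ℝ), (0 : ℝ)) ∈ O := subset_convexHull ℝ _ (by simp)
  have c11 : ((1 : ℝ), (1 : ℝ)) ∈ O := subset_convexHull ℝ _ (by simp)
  have c01 : ((0 : ℝ), (1 : ℝ)) ∈ O := subset_convexHull ℝ _ (by simp)
  have d1 : (x1, -h1) ∈ O := subset_convexHull ℝ _ (by simp)
  have d2 : (1 + h2, y2) ∈ O := subset_convexHull ℝ _ (by simp)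
  have d3 : (x3, 1 + h3) ∈ O := subset_convexHull ℝ _ (by simp)
  have d4 : (-h4, y4) ∈ O := subset_convexHull ℝ _ (by simp)
  -- the pieces
  obtain ⟨T1, hT1⟩ : ∃ T : Set P, T = convexHull ℝ {(0, 0), (1, 0), (x1, -h1)} := ⟨_, rfl⟩
  obtain ⟨T2, hT2⟩ : ∃ T : Set P, T = convexHull ℝ {(1, 0), (1, 1), (1 + h2, y2)} := ⟨_, rfl⟩
  obtain ⟨T3, hT3⟩ : ∃ T : Set P, T = convexHull ℝ {(0, 1), (1, 1), (x3, 1 + h3)} := ⟨_, rfl⟩
  obtain ⟨T4, hT4⟩ : ∃ T : Set P, T = convexHull ℝ {(0, 0), (0, 1), (-h4, y4)} := ⟨_, rfl⟩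
  have m1 : MeasurableSet T1 := by
    rw [hT1]; exact ((Set.toFinite _).isCompact_convexHull ℝ).measurableSet
  have m2 : MeasurableSet T2 := by
    rw [hT2]; exact ((Set.toFinite _).isCompact_convexHull ℝ).measurableSet
  have m3 : MeasurableSet T3 := by
    rw [hT3]; exact ((Set.toFinite _).isCompact_convexHull ℝ).measurableSet
  have m4 : MeasurableSet T4 := by
    rw [hT4]; exact ((Set.toFinite _).isCompact_convexHull ℝ).measurableSet
  have s1 : T1 ⊆ O := by rw [hT1]; exact hull3 hconv c00 c10 d1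
  have s2 : T2 ⊆ O := by rw [hT2]; exact hull3 hconv c10 c11 d2
  have s3 : T3 ⊆ O := by rw [hT3]; exact hull3 hconv c01 c11 d3
  have s4 : T4 ⊆ O := by rw [hT4]; exact hull3 hconv c00 c01 d4
  have v1 : volume T1 = ENNReal.ofReal (h1 / 2) := by
    rw [hT1, h]
    congr 2
    simp [cr, abs_of_nonneg hh1]
  have v2 : volume T2 = ENNReal.ofReal (h2 / 2) := by
    rw [hT2, h]
    congr 2
    simp [cr, abs_of_nonneg hh2]
  have v3 : volume T3 = ENNReal.ofReal (h3 / 2) := by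
    rw [hT3, h]
    congr 2
    simp [cr, abs_of_nonneg hh3]
  have v4 : volume T4 = ENNReal.ofReal (h4 / 2) := by
    rw [hT4, h]
    congr 2
    simp [cr, abs_of_nonneg hh4]
  -- half planes
  have q1' : T1 ⊆ {z : P | z.2 ∈ Iic (0 : ℝ)} := by
    rw [hT1]
    exact hull3 (conv_snd (convex_Iic (0 : ℝ))) (by simp) (by simp) (by simpa using hh1)
  have q2' : T2 ⊆ {z : P | z.1 ∈ Ici (1 : ℝ)} := by
    rw [hT2]
    exact hull3 (conv_fst (convex_Ici (1 : ℝ))) (by simp) (by simp) (by simpa using hh2)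
  have q3' : T3 ⊆ {z : P | z.2 ∈ Ici (1 : ℝ)} := by
    rw [hT3]
    exact hull3 (conv_snd (convex_Ici (1 : ℝ))) (by simp) (by simp) (by simpa using hh3)
  have q4' : T4 ⊆ {z : P | z.1 ∈ Iic (0 : ℝ)} := by
    rw [hT4]
    exact hull3 (conv_fst (convex_Iic (0 : ℝ))) (by simp) (by simp) (by simpa using hh4)
  have r2' : T2 ⊆ {z : P | z.2 ∈ Icc (0 : ℝ) 1} := by
    rw [hT2]
    exact hull3 (conv_snd (convex_Icc (0 : ℝ) 1)) (by simp) (by simp)
      (by simpa using And.intro hy2 hy2')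
  have r4' : T4 ⊆ {z : P | z.2 ∈ Icc (0 : ℝ) 1} := by
    rw [hT4]
    exact hull3 (conv_snd (convex_Icc (0 : ℝ) 1)) (by simp) (by simp)
      (by simpa using And.intro hy4 hy4')
  have q1 : ∀ z ∈ T1, z.2 ≤ 0 := fun z hz => q1' hz
  have q2 : ∀ z ∈ T2, 1 ≤ z.1 := fun z hz => q2' hz
  have q3 : ∀ z ∈ T3, 1 ≤ z.2 := fun z hz => q3' hz
  have q4 : ∀ z ∈ T4, z.1 ≤ 0 := fun z hz => q4' hz
  have r2 : ∀ z ∈ T2, 0 ≤ z.2 ∧ z.2 ≤ 1 := fun z hz => r2' hz
  have r4 : ∀ z ∈ T4, 0 ≤ z.2 ∧ z.2 ≤ 1 := fun z hz => r4' hz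
  -- the disjoint pieces
  obtain ⟨A0, hA0⟩ : ∃ A : Set P, A = Ioo 0 1 ×ˢ Ioo 0 1 := ⟨_, rfl⟩
  obtain ⟨A1, hA1⟩ : ∃ A : Set P, A = T1 ∩ {z | z.2 < 0} := ⟨_, rfl⟩
  obtain ⟨A2, hA2⟩ : ∃ A : Set P, A = T2 ∩ {z | 1 < z.1} := ⟨_, rfl⟩
  obtain ⟨A3, hA3⟩ : ∃ A : Set P, A = T3 ∩ {z | 1 < z.2} := ⟨_, rfl⟩
  obtain ⟨A4, hA4⟩ : ∃ A : Set P, A = T4 ∩ {z | z.1 < 0} := ⟨_, rfl⟩
  have n1 : MeasurableSet A1 := by
    rw [hA1]; exact m1.inter (measurableSet_lt measurable_snd measurable_const)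
  have n2 : MeasurableSet A2 := by
    rw [hA2]; exact m2.inter (measurableSet_lt measurable_const measurable_fst)
  have n3 : MeasurableSet A3 := by
    rw [hA3]; exact m3.inter (measurableSet_lt measurable_const measurable_snd)
  have n4 : MeasurableSet A4 := by
    rw [hA4]; exact m4.inter (measurableSet_lt measurable_fst measurable_const)
  have w0 : volume A0 = 1 := by
    rw [hA0, Measure.volume_eq_prod, Measure.prod_prod, Real.volume_Ioo]
    simp
  have w1 : ENNReal.ofReal (h1 / 2) ≤ volume A1 := by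
    rw [← v1]
    calc volume T1 ≤ volume (A1 ∪ {z : P | z.2 = 0}) := by
          apply measure_mono
          intro z hz
          rcases (q1 z hz).lt_or_eq with hl | he
          · left; rw [hA1]; exact ⟨hz, hl⟩
          · right; exact he
      _ ≤ volume A1 + volume {z : P | z.2 = 0} := measure_union_le _ _
      _ = volume A1 := by rw [line_snd, add_zero]
  have w2 : ENNReal.ofReal (h2 / 2) ≤ volume A2 := by
    rw [← v2]
    calc volume T2 ≤ volume (A2 ∪ {z : P | z.1 = 1}) := by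
          apply measure_mono
          intro z hz
          rcases (q2 z hz).lt_or_eq with hl | he
          · left; rw [hA2]; exact ⟨hz, hl⟩
          · right; exact he.symm
      _ ≤ volume A2 + volume {z : P | z.1 = 1} := measure_union_le _ _
      _ = volume A2 := by rw [line_fst, add_zero]
  have w3 : ENNReal.ofReal (h3 / 2) ≤ volume A3 := by
    rw [← v3]
    calc volume T3 ≤ volume (A3 ∪ {z : P | z.2 = 1}) := by
          apply measure_mono
          intro z hz
          rcases (q3 z hz).lt_or_eq with hl | he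
          · left; rw [hA3]; exact ⟨hz, hl⟩
          · right; exact he.symm
      _ ≤ volume A3 + volume {z : P | z.2 = 1} := measure_union_le _ _
      _ = volume A3 := by rw [line_snd, add_zero]
  have w4 : ENNReal.ofReal (h4 / 2) ≤ volume A4 := by
    rw [← v4]
    calc volume T4 ≤ volume (A4 ∪ {z : P | z.1 = 0}) := by
          apply measure_mono
          intro z hz
          rcases (q4 z hz).lt_or_eq with hl | he
          · left; rw [hA4]; exact ⟨hz, hl⟩
          · right; exact he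
      _ ≤ volume A4 + volume {z : P | z.1 = 0} := measure_union_le _ _
      _ = volume A4 := by rw [line_fst, add_zero]
  -- the square
  have s0 : A0 ⊆ O := by
    rw [hA0]
    rintro ⟨x, y⟩ ⟨⟨hx, hx'⟩, ⟨hy, hy'⟩⟩
    simp only at hx hx' hy hy'
    have e1 := seg hconv c00 c10 hx.le hx'.le
    have e2 := seg hconv c01 c11 hx.le hx'.le
    have e3 := seg hconv e1 e2 hy.le hy'.le
    have e4 : ((x, y) : P) = ((1 - y) * ((1 - x) * 0 + x * 1) + y * ((1 - x) * 0 + x * 1),
        (1 - y) * ((1 - x) * 0 + x * 0) + y * ((1 - x) * 1 + x * 1)) := by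
      ext
      · simp only; ring
      · simp only; ring
    rw [e4]
    exact e3
  have hsub : (((A0 ∪ A1) ∪ A2) ∪ A3) ∪ A4 ⊆ O := by
    refine union_subset (union_subset (union_subset (union_subset s0 ?_) ?_) ?_) ?_
    · rw [hA1]; exact inter_subset_left.trans s1
    · rw [hA2]; exact inter_subset_left.trans s2
    · rw [hA3]; exact inter_subset_left.trans s3
    · rw [hA4]; exact inter_subset_left.trans s4
  have j1 : Disjoint A0 A1 := by
    rw [Set.disjoint_left, hA0, hA1]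
    rintro z ⟨hz1, hz2⟩ ⟨hz3, hz4⟩
    exact absurd hz4 (not_lt.2 hz2.1.le)
  have j2 : Disjoint (A0 ∪ A1) A2 := by
    rw [Set.disjoint_left]
    rintro z hz hz2
    rw [hA2] at hz2
    rcases hz with hz | hz
    · rw [hA0] at hz
      exact absurd hz2.2 (not_lt.2 hz.1.2.le)
    · rw [hA1] at hz
      exact absurd hz.2 (not_lt.2 (r2 z hz2.1).1)
  have j3 : Disjoint ((A0 ∪ A1) ∪ A2) A3 := by
    rw [Set.disjoint_left]
    rintro z hz hz3
    rw [hA3] at hz3
    have hz4 : 1 < z.2 := hz3.2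
    rcases hz with (hz | hz) | hz
    · rw [hA0] at hz
      exact absurd hz4 (not_lt.2 hz.2.2.le)
    · rw [hA1] at hz
      have : z.2 < 0 := hz.2
      linarith
    · rw [hA2] at hz
      exact absurd hz4 (not_lt.2 (r2 z hz.1).2)
  have j4 : Disjoint (((A0 ∪ A1) ∪ A2) ∪ A3) A4 := by
    rw [Set.disjoint_left]
    rintro z hz hz3
    rw [hA4] at hz3
    have hz4 : z.1 < 0 := hz3.2
    have hz5 := r4 z hz3.1
    rcases hz with ((hz | hz) | hz) | hz
    · rw [hA0] at hz
      exact absurd hz4 (not_lt.2 hz.1.1.le)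
    · rw [hA1] at hz
      exact absurd hz.2 (not_lt.2 hz5.1)
    · rw [hA2] at hz
      have : 1 < z.1 := hz.2
      linarith
    · rw [hA3] at hz
      exact absurd hz.2 (not_lt.2 hz5.2)
  have htot : ENNReal.ofReal (1 + (h1 + h2 + h3 + h4) / 2) ≤ volume O := by
    calc ENNReal.ofReal (1 + (h1 + h2 + h3 + h4) / 2)
        = 1 + ENNReal.ofReal (h1 / 2) + ENNReal.ofReal (h2 / 2) + ENNReal.ofReal (h3 / 2) +
          ENNReal.ofReal (h4 / 2) := by
          rw [← ENNReal.ofReal_one, ← ENNReal.ofReal_add (by positivity) (by positivity),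
            ← ENNReal.ofReal_add (by positivity) (by positivity),
            ← ENNReal.ofReal_add (by positivity) (by positivity),
            ← ENNReal.ofReal_add (by positivity) (by positivity)]
          congr 1
          ring
      _ ≤ volume A0 + volume A1 + volume A2 + volume A3 + volume A4 := by
          gcongr
          exact w0.ge
      _ = volume ((((A0 ∪ A1) ∪ A2) ∪ A3) ∪ A4) := by
          rw [measure_union j4 n4, measure_union j3 n3, measure_union j2 n2, measure_union j1 n1]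
      _ ≤ volume O := measure_mono hsub
  exact (ENNReal.ofReal_le_iff_le_toReal hcomp.measure_ne_top).1 htot

end Pool.Agent.N682.CQ.ARE
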